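import Mathlib

set_option autoImplicit false

namespace Pool.Agent.Results.MP_ba200f_al.KantorDoubleCounterexample

universe u v w

/-- `sg i = (-1)^i` for a parity `i` in `ℤ/2`. -/
def sg (i : ZMod 2) : ℤ := if i = 0 then 1 else -1

/-- `f : X × Y → Z` is bilinear over `F`. -/
structure IsBilinear (F : Type u) [Field F] {X Y Z : Type*} [AddCommGroup X] [Module F X]
    [AddCommGroup Y] [Module F Y] [AddCommGroup Z] [Module F Z] (f : X → Y → Z) : Prop where
  add_left : ∀ (x x' : X) (y : Y), f (x + x') y = f x y + f x' y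
  add_right : ∀ (x : X) (y y' : Y), f x (y + y') = f x y + f x y'
  smul_left : ∀ (c : F) (x : X) (y : Y), f (c • x) y = c • f x y
  smul_right : ∀ (c : F) (x : X) (y : Y), f x (c • y) = c • f x y

section Definitions

variable {F : Type u} [Field F]
variable {V : Type v} [AddCommGroup V] [Module F V] {M : Type w} [AddCommGroup M] [Module F M]

/-- A superspace `V = P 0 ⊕ P 1` (`P i` is the part of parity `i`), together with its parity
automorphism `σ`, i.e. `σ x = (-1)^{|x|} x` for homogeneous `x`. -/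
structure IsSuperspace (P : ZMod 2 → Submodule F V) (σ : V → V) : Prop where
  isCompl : IsCompl (P 0) (P 1)
  add : ∀ x y : V, σ (x + y) = σ x + σ y
  even : ∀ x ∈ P 0, σ x = x
  odd : ∀ x ∈ P 1, σ x = -x

/-- `mul` is a bilinear even operation on the superspace `V = P 0 ⊕ P 1`. -/
structure IsSuperalgebra (P : ZMod 2 → Submodule F V) (mul : V → V → V) : Prop where
  isCompl : IsCompl (P 0) (P 1)
  bilinear : IsBilinear F mul
  even : ∀ (i j : ZMod 2) (x y : V), x ∈ P i → y ∈ P j → mul x y ∈ P (i + j)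

/-- `(V, mul)` is a Jordan superalgebra (characteristic not 2): supercommutativity, the linearised
Jordan super-identity, and the Jordan identity for even `x` (the latter follows from the
linearised one unless the characteristic is 3). -/
structure IsJordan (P : ZMod 2 → Submodule F V) (mul : V → V → V) : Prop where
  superalgebra : IsSuperalgebra P mul
  comm : ∀ (i j : ZMod 2) (x y : V), x ∈ P i → y ∈ P j → mul x y = sg (i * j) • mul y x
  jordan : ∀ (i j k l : ZMod 2) (x y z t : V), x ∈ P i → y ∈ P j → z ∈ P k → t ∈ P l →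
    mul (mul (mul x y) z) t
        + sg (j * k + j * l + k * l) • mul (mul (mul x t) z) y
        + sg (i * j + i * k + i * l + k * l) • mul (mul (mul y t) z) x
      = mul (mul x y) (mul z t)
        + sg (j * k) • mul (mul x z) (mul y t)
        + sg (j * l + k * l) • mul (mul x t) (mul y z)
  jordan_even : ∀ x y : V, x ∈ P 0 → mul (mul (mul x x) y) x = mul (mul x x) (mul y x)

/-- `(V, dot, br)` is a dot-bracket superalgebra: `dot` is associative and supercommutative, `br`
is super-anticommutative, both are bilinear and even. -/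
structure IsDotBracket (P : ZMod 2 → Submodule F V) (dot br : V → V → V) : Prop where
  dot_superalgebra : IsSuperalgebra P dot
  br_superalgebra : IsSuperalgebra P br
  dot_assoc : ∀ x y z : V, dot (dot x y) z = dot x (dot y z)
  dot_comm : ∀ (i j : ZMod 2) (x y : V), x ∈ P i → y ∈ P j → dot x y = sg (i * j) • dot y x
  br_anticomm : ∀ (i j : ZMod 2) (x y : V), x ∈ P i → y ∈ P j →
    br x y = -(sg (i * j) • br y x)

/-- The grading of the Kantor double `V ⊕ V̄`; the pair `(a, b)` stands for `a + b̄`. -/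
def kanPart (P : ZMod 2 → Submodule F V) (i : ZMod 2) : Submodule F (V × V) :=
  (P i).prod (P (i + 1))

/-- The product of the Kantor double: `a * c = a·c`, `a * d̄ = (a·d)‾`,
`b̄ * c = (-1)^{|c|} (b·c)‾`, `b̄ * d̄ = (-1)^{|d|} {b, d}`. -/
def kanMul (dot br : V → V → V) (σ : V → V) (x y : V × V) : V × V :=
  (dot x.1 y.1 + br x.2 (σ y.2), dot x.1 y.2 + dot x.2 (σ y.1))

/-- The grading of a split null extension `V ⊕ M`. -/
def splitPart (P : ZMod 2 → Submodule F V) (Q : ZMod 2 → Submodule F M) (i : ZMod 2) :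
    Submodule F (V × M) :=
  (P i).prod (Q i)

/-- The product of a split null extension `V ⊕ M` (with `M·M = 0`), given the left action `left`
and the right action `right` of `V` on `M`. -/
def splitMul (mul : V → V → V) (left : V → M → M) (right : M → V → M) (x y : V × M) : V × M :=
  (mul x.1 y.1, left x.1 y.2 + right x.2 y.1)

/-- `M`, with grading `Q` and bilinear actions `left`, `right`, is a Jordan supermodule over
`(V, mul)`: the split null extension is a Jordan superalgebra. -/
structure IsJordanSupermodule (P : ZMod 2 → Submodule F V) (mul : V → V → V)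
    (Q : ZMod 2 → Submodule F M) (left : V → M → M) (right : M → V → M) : Prop where
  bilinear_left : IsBilinear F left
  bilinear_right : IsBilinear F right
  jordan : IsJordan (splitPart P Q) (splitMul mul left right)

/-- `M ≠ 0` and the only graded submodules of `M` are `0` and `M`. -/
def IsIrreducible (Q : ZMod 2 → Submodule F M) (left : V → M → M) (right : M → V → M) : Prop :=
  (∃ m : M, m ≠ 0) ∧
  ∀ N : Submodule F M, N = (N ⊓ Q 0) ⊔ (N ⊓ Q 1) →
    (∀ a : V, ∀ m ∈ N, left a m ∈ N ∧ right m a ∈ N) → N = ⊥ ∨ N = ⊤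

/-- The dot-bracket superalgebra `(V, dot, br)` is simple: `V ≠ 0` and the only ideals for `dot`
closed under bracketing with `V` are `0` and `V`. -/
def IsSimple (F : Type u) [Field F] {V : Type v} [AddCommGroup V] [Module F V]
    (dot br : V → V → V) : Prop :=
  (∃ x : V, x ≠ 0) ∧
  ∀ I : Submodule F V, (∀ a : V, ∀ x ∈ I, dot a x ∈ I ∧ dot x a ∈ I ∧ br x a ∈ I) →
    I = ⊥ ∨ I = ⊤

/-- `M`, with grading `Q`, parity automorphism `τ` and bilinear actions `a·m` (`dotL`), `m·a`
(`dotR`), `{a, m}` (`brL`), `{m, a}` (`brR`), is a dot-bracket supermodule with a Jordan bracket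
over `(V, dot, br)`: the split null extension is a dot-bracket superalgebra with a Jordan
bracket. -/
structure IsDotBracketSupermodule (P : ZMod 2 → Submodule F V) (σ : V → V) (dot br : V → V → V)
    (Q : ZMod 2 → Submodule F M) (τ : M → M) (dotL : V → M → M) (dotR : M → V → M)
    (brL : V → M → M) (brR : M → V → M) : Prop where
  superspace : IsSuperspace Q τ
  bilinear_dotL : IsBilinear F dotL
  bilinear_dotR : IsBilinear F dotR
  bilinear_brL : IsBilinear F brL
  bilinear_brR : IsBilinear F brR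
  dotBracket : IsDotBracket (splitPart P Q) (splitMul dot dotL dotR) (splitMul br brL brR)
  jordan : IsJordan (kanPart (splitPart P Q))
    (kanMul (splitMul dot dotL dotR) (splitMul br brL brR) (fun x => (σ x.1, τ x.2)))

/-- The right action of `Kan(V)` on `Kan(M) = M ⊕ M̄`, given by the same formulas as `kanMul`; the
pair `(x, y)` stands for `x + ȳ`: `x * a = x·a`, `x * b̄ = (x·b)‾`, `ȳ * a = (-1)^{|a|} (y·a)‾`,
`ȳ * b̄ = (-1)^{|b|} {y, b}`. -/
def kanRight (σ : V → V) (dotR brR : M → V → M) (m : M × M) (c : V × V) : M × M :=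
  (dotR m.1 c.1 + brR m.2 (σ c.2), dotR m.1 c.2 + dotR m.2 (σ c.1))

end Definitions

section Example

variable {F : Type u} [Field F] {Γ : Type v} [CommRing Γ] [Algebra F Γ]

/-- The grading of `Γ ⊕ Γe` (and of `Γm₀ ⊕ Γm₁`): first summand even, second summand odd. -/
def part (F : Type u) [Field F] (Γ : Type v) [CommRing Γ] [Algebra F Γ] (i : ZMod 2) :
    Submodule F (Γ × Γ) :=
  if i = 0 then Submodule.prod ⊤ ⊥ else Submodule.prod ⊥ ⊤

/-- The parity automorphism of `Γ ⊕ Γe`. -/
def par (x : Γ × Γ) : Γ × Γ := (x.1, -x.2)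

/-- The product of `A = Γ ⊕ Γe` (`e` odd, `e·e = 0`); the pair `(f, g)` stands for `f + ge`. -/
def dot (x y : Γ × Γ) : Γ × Γ := (x.1 * y.1, x.1 * y.2 + x.2 * y.1)

/-- The bracket of `A = Γ ⊕ Γe`: `{f, f'} = D(f)f' - fD(f')`, `{f, g'e} = -fD(g')e`,
`{ge, f'} = D(g)f'e`, `{ge, g'e} = -gg'`. For `Γ = F`, `D = 0` this is the Grassmann Poisson
superalgebra `G₁`. -/
def br (D : Derivation F Γ Γ) (x y : Γ × Γ) : Γ × Γ :=
  (D x.1 * y.1 - x.1 * D y.1 - x.2 * y.2, D x.2 * y.1 - x.1 * D y.2)

/-- The right action of `Kan(A)` on `M = Γm₀ ⊕ Γm₁`; the pair `(p, q)` stands for `pm₀ + qm₁` and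
`((f, g), (u, v))` for `f + ge + ū + (ve)‾`. -/
def exR (D : Derivation F Γ Γ) (m : Γ × Γ) (a : (Γ × Γ) × (Γ × Γ)) : Γ × Γ :=
  (m.1 * a.1.1 - m.2 * a.1.2 + D m.2 * a.2.1 + m.1 * a.2.2, m.2 * a.1.1 + m.1 * a.2.1)

/-- The left action of `Kan(A)` on `M`, i.e. `a * m = (-1)^{|a||m|} m * a`. -/
def exL (D : Derivation F Γ Γ) (a : (Γ × Γ) × (Γ × Γ)) (m : Γ × Γ) : Γ × Γ :=
  (a.1.1 * m.1 + a.1.2 * m.2 - a.2.1 * D m.2 + a.2.2 * m.1, a.1.1 * m.2 + a.2.1 * m.1)

/-- `Γ` is differentiably simple: `Γ ≠ 0` and the only ideals of `Γ` stable under `D` are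
`0` and `Γ`. -/
def DiffSimple (D : Derivation F Γ Γ) : Prop :=
  (∃ x : Γ, x ≠ 0) ∧ ∀ I : Ideal Γ, (∀ x ∈ I, D x ∈ I) → I = ⊥ ∨ I = ⊤

/-- A field with the zero derivation is differentiably simple (so the theorem below applies to
`Γ = F`, `D = 0`, where `A` is the Grassmann Poisson superalgebra `G₁`). -/
theorem diffSimple_zero (F : Type u) [Field F] : DiffSimple (0 : Derivation F F F) :=
  ⟨⟨1, one_ne_zero⟩, fun I _ => Ideal.eq_bot_or_top I⟩

theorem parity_cases (i : ZMod 2) : i = 0 ∨ i = 1 := by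
  revert i; decide

theorem parity_one_one : (1 : ZMod 2) + 1 = 0 := rfl

theorem sg_zero : sg 0 = 1 := by simp [sg]

theorem sg_one : sg 1 = -1 := by simp [sg]

theorem isCompl_prod {V : Type v} [AddCommGroup V] [Module F V] {W : Type w} [AddCommGroup W]
    [Module F W] {p q : Submodule F V} {r s : Submodule F W} (h : IsCompl p q)
    (h' : IsCompl r s) : IsCompl (p.prod r) (q.prod s) := by
  constructor
  · rw [Submodule.disjoint_def]
    rintro ⟨x, y⟩ ⟨hx, hy⟩ ⟨hx', hy'⟩
    have e1 := Submodule.disjoint_def.1 h.disjoint x hx hx'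
    have e2 := Submodule.disjoint_def.1 h'.disjoint y hy hy'
    rw [Prod.mk_eq_zero]
    exact ⟨e1, e2⟩
  · rw [codisjoint_iff, Submodule.eq_top_iff']
    rintro ⟨x, y⟩
    have hx : x ∈ p ⊔ q := by rw [h.sup_eq_top]; trivial
    have hy : y ∈ r ⊔ s := by rw [h'.sup_eq_top]; trivial
    obtain ⟨a, ha, b, hb, rfl⟩ := Submodule.mem_sup.1 hx
    obtain ⟨c, hc, d, hd, rfl⟩ := Submodule.mem_sup.1 hy
    exact Submodule.mem_sup.2 ⟨(a, c), ⟨ha, hc⟩, (b, d), ⟨hb, hd⟩, rfl⟩

theorem mem_part_zero (x : Γ × Γ) : x ∈ part F Γ 0 ↔ x.2 = 0 := by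
  simp [part, Submodule.mem_prod]

theorem mem_part_one (x : Γ × Γ) : x ∈ part F Γ 1 ↔ x.1 = 0 := by
  simp [part, Submodule.mem_prod]

theorem part_isCompl : IsCompl (part F Γ 0) (part F Γ 1) := by
  have h0 : part F Γ 0 = Submodule.prod ⊤ ⊥ := by simp [part]
  have h1 : part F Γ 1 = Submodule.prod ⊥ ⊤ := by simp [part]
  rw [h0, h1]
  exact isCompl_prod isCompl_top_bot isCompl_bot_top

theorem isSuperspace_part : IsSuperspace (part F Γ) (par (Γ := Γ)) where
  isCompl := part_isCompl
  add := by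
    intro x y
    simp only [par]
    ext
    · simp
    · simp; ring
  even := by
    intro x hx
    rw [mem_part_zero] at hx
    ext <;> simp [par, hx]
  odd := by
    intro x hx
    rw [mem_part_one] at hx
    ext <;> simp [par, hx]

theorem isDotBracket_contact (D : Derivation F Γ Γ) :
    IsDotBracket (part F Γ) (dot (Γ := Γ)) (br D) where
  dot_superalgebra :=
    { isCompl := part_isCompl
      bilinear :=
        { add_left := by intro x y z; ext <;> simp [dot] <;> ring
          add_right := by intro x y z; ext <;> simp [dot] <;> ring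
          smul_left := by intro c x y; ext <;> simp [dot, smul_add]
          smul_right := by intro c x y; ext <;> simp [dot, smul_add] }
      even := by
        intro i j x y hx hy
        rcases parity_cases i with rfl | rfl <;> rcases parity_cases j with rfl | rfl <;>
        simp only [add_zero, zero_add, parity_one_one, mem_part_zero, mem_part_one, dot]
          at hx hy ⊢ <;> simp [hx, hy] }
  br_superalgebra :=
    { isCompl := part_isCompl
      bilinear :=
        { add_left := by intro x y z; ext <;> simp [br] <;> ring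
          add_right := by intro x y z; ext <;> simp [br] <;> ring
          smul_left := by intro c x y; ext <;> simp [br, smul_sub]
          smul_right := by intro c x y; ext <;> simp [br, smul_sub] }
      even := by
        intro i j x y hx hy
        rcases parity_cases i with rfl | rfl <;> rcases parity_cases j with rfl | rfl <;>
        simp only [add_zero, zero_add, parity_one_one, mem_part_zero, mem_part_one, br]
          at hx hy ⊢ <;> simp [hx, hy] }
  dot_assoc := by intro x y z; ext <;> simp [dot] <;> ring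
  dot_comm := by
    intro i j x y hx hy
    rcases parity_cases i with rfl | rfl <;> rcases parity_cases j with rfl | rfl <;>
    simp only [mem_part_zero, mem_part_one, dot] at hx hy ⊢ <;>
    ext <;> simp [hx, hy, sg] <;> ring
  br_anticomm := by
    intro i j x y hx hy
    rcases parity_cases i with rfl | rfl <;> rcases parity_cases j with rfl | rfl <;>
    simp only [mem_part_zero, mem_part_one, br] at hx hy ⊢ <;>
    ext <;> simp [hx, hy, sg] <;> ring

theorem mem_kan_zero (x : (Γ × Γ) × (Γ × Γ)) :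
    x ∈ kanPart (part F Γ) 0 ↔ x.1.2 = 0 ∧ x.2.1 = 0 := by
  change x.1 ∈ part F Γ 0 ∧ x.2 ∈ part F Γ (0 + 1) ↔ _
  rw [zero_add, mem_part_zero, mem_part_one]

theorem mem_kan_one (x : (Γ × Γ) × (Γ × Γ)) :
    x ∈ kanPart (part F Γ) 1 ↔ x.1.1 = 0 ∧ x.2.2 = 0 := by
  change x.1 ∈ part F Γ 1 ∧ x.2 ∈ part F Γ (1 + 1) ↔ _
  rw [parity_one_one, mem_part_zero, mem_part_one]

theorem mem_split_zero (x : ((Γ × Γ) × (Γ × Γ)) × (Γ × Γ)) :
    x ∈ splitPart (kanPart (part F Γ)) (part F Γ) 0 ↔
      (x.1.1.2 = 0 ∧ x.1.2.1 = 0) ∧ x.2.2 = 0 := by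
  change x.1 ∈ kanPart (part F Γ) 0 ∧ x.2 ∈ part F Γ 0 ↔ _
  rw [mem_kan_zero, mem_part_zero]

theorem mem_split_one (x : ((Γ × Γ) × (Γ × Γ)) × (Γ × Γ)) :
    x ∈ splitPart (kanPart (part F Γ)) (part F Γ) 1 ↔
      (x.1.1.1 = 0 ∧ x.1.2.2 = 0) ∧ x.2.1 = 0 := by
  change x.1 ∈ kanPart (part F Γ) 1 ∧ x.2 ∈ part F Γ 1 ↔ _
  rw [mem_kan_one, mem_part_one]

theorem split_mul (D : Derivation F Γ Γ) (x y : ((Γ × Γ) × (Γ × Γ)) × (Γ × Γ)) :
    splitMul (kanMul dot (br D) par) (exL D) (exR D) x y =
      (((x.1.1.1 * y.1.1.1 + (D x.1.2.1 * y.1.2.1 - x.1.2.1 * D y.1.2.1 + x.1.2.2 * y.1.2.2),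
        x.1.1.1 * y.1.1.2 + x.1.1.2 * y.1.1.1 + (D x.1.2.2 * y.1.2.1 + x.1.2.1 * D y.1.2.2)),
       (x.1.1.1 * y.1.2.1 + x.1.2.1 * y.1.1.1,
        x.1.1.1 * y.1.2.2 + x.1.1.2 * y.1.2.1 + (x.1.2.2 * y.1.1.1 - x.1.2.1 * y.1.1.2))),
       (x.1.1.1 * y.2.1 + x.1.1.2 * y.2.2 - x.1.2.1 * D y.2.2 + x.1.2.2 * y.2.1
          + (x.2.1 * y.1.1.1 - x.2.2 * y.1.1.2 + D x.2.2 * y.1.2.1 + x.2.1 * y.1.2.2),
        x.1.1.1 * y.2.2 + x.1.2.1 * y.2.1 + (x.2.2 * y.1.1.1 + x.2.1 * y.1.2.1))) := by
  simp only [splitMul, kanMul, dot, br, par, exL, exR]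
  ext <;> simp
  ring

theorem split_superalgebra (D : Derivation F Γ Γ) :
    IsSuperalgebra (splitPart (kanPart (part F Γ)) (part F Γ))
      (splitMul (kanMul dot (br D) par) (exL D) (exR D)) where
  isCompl := isCompl_prod (isCompl_prod part_isCompl part_isCompl.symm) part_isCompl
  bilinear :=
    { add_left := by
        intro x y z
        simp only [split_mul]
        ext <;> simp <;> ring
      add_right := by
        intro x y z
        simp only [split_mul]
        ext <;> simp <;> ring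
      smul_left := by
        intro c x y
        simp only [split_mul]
        ext <;> simp [smul_add, smul_sub]
      smul_right := by
        intro c x y
        simp only [split_mul]
        ext <;> simp [smul_add, smul_sub] }
  even := by
    rintro i j ⟨⟨⟨x1, x2⟩, ⟨x3, x4⟩⟩, ⟨x5, x6⟩⟩ ⟨⟨⟨y1, y2⟩, ⟨y3, y4⟩⟩, ⟨y5, y6⟩⟩ hx hy
    rcases parity_cases i with rfl | rfl <;> rcases parity_cases j with rfl | rfl <;>
    simp only [add_zero, zero_add, parity_one_one, mem_split_zero, mem_split_one] at hx hy ⊢ <;>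
    obtain ⟨⟨rfl, rfl⟩, rfl⟩ := hx <;> obtain ⟨⟨rfl, rfl⟩, rfl⟩ := hy <;>
    simp [split_mul]

set_option maxHeartbeats 4000000 in
theorem exotic_isJordan (D : Derivation F Γ Γ) :
    IsJordan (splitPart (kanPart (part F Γ)) (part F Γ))
      (splitMul (kanMul dot (br D) par) (exL D) (exR D)) where
  superalgebra := split_superalgebra D
  comm := by
    rintro i j ⟨⟨⟨x1, x2⟩, ⟨x3, x4⟩⟩, ⟨x5, x6⟩⟩ ⟨⟨⟨y1, y2⟩, ⟨y3, y4⟩⟩, ⟨y5, y6⟩⟩ hx hy
    rcases parity_cases i with rfl | rfl <;> rcases parity_cases j with rfl | rfl <;>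
    simp only [mem_split_zero, mem_split_one] at hx hy <;>
    obtain ⟨⟨rfl, rfl⟩, rfl⟩ := hx <;> obtain ⟨⟨rfl, rfl⟩, rfl⟩ := hy <;>
    simp only [split_mul, mul_zero, mul_one, sg_zero, sg_one, map_zero, zero_mul] <;>
    ext <;> simp <;> ring
  jordan := by
    rintro i j k l ⟨⟨⟨x1, x2⟩, ⟨x3, x4⟩⟩, ⟨x5, x6⟩⟩ ⟨⟨⟨y1, y2⟩, ⟨y3, y4⟩⟩, ⟨y5, y6⟩⟩
      ⟨⟨⟨z1, z2⟩, ⟨z3, z4⟩⟩, ⟨z5, z6⟩⟩ ⟨⟨⟨t1, t2⟩, ⟨t3, t4⟩⟩, ⟨t5, t6⟩⟩ hx hy hz ht
    rcases parity_cases i with rfl | rfl <;> rcases parity_cases j with rfl | rfl <;>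
    rcases parity_cases k with rfl | rfl <;> rcases parity_cases l with rfl | rfl <;>
    simp only [mem_split_zero, mem_split_one] at hx hy hz ht <;>
    obtain ⟨⟨rfl, rfl⟩, rfl⟩ := hx <;> obtain ⟨⟨rfl, rfl⟩, rfl⟩ := hy <;>
    obtain ⟨⟨rfl, rfl⟩, rfl⟩ := hz <;> obtain ⟨⟨rfl, rfl⟩, rfl⟩ := ht <;>
    simp only [split_mul, mul_zero, mul_one, add_zero, zero_add, parity_one_one,
      sg_zero, sg_one, map_zero, zero_mul, map_add, map_sub, Derivation.leibniz, smul_eq_mul,
      sub_zero, zero_sub, one_smul, neg_smul, Prod.mk_add_mk, Prod.neg_mk] <;>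
    ext <;> simp <;> ring
  jordan_even := by
    rintro ⟨⟨⟨x1, x2⟩, ⟨x3, x4⟩⟩, ⟨x5, x6⟩⟩ ⟨⟨⟨y1, y2⟩, ⟨y3, y4⟩⟩, ⟨y5, y6⟩⟩ hx
    simp only [mem_split_zero] at hx
    obtain ⟨⟨rfl, rfl⟩, rfl⟩ := hx
    simp only [split_mul, mul_zero, add_zero, zero_add, map_zero, zero_mul, map_add,
      Derivation.leibniz, smul_eq_mul, sub_zero]
    ext <;> simp <;> ring

theorem exotic_isJordanSupermodule (D : Derivation F Γ Γ) :
    IsJordanSupermodule (kanPart (part F Γ)) (kanMul dot (br D) par) (part F Γ) (exL D)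
      (exR D) where
  bilinear_left :=
    { add_left := by intro x y z; ext <;> simp [exL] <;> ring
      add_right := by intro x y z; ext <;> simp [exL] <;> ring
      smul_left := by intro c x y; ext <;> simp [exL, smul_add, smul_sub]
      smul_right := by intro c x y; ext <;> simp [exL, smul_add, smul_sub] }
  bilinear_right :=
    { add_left := by intro x y z; ext <;> simp [exR] <;> ring
      add_right := by intro x y z; ext <;> simp [exR] <;> ring
      smul_left := by intro c x y; ext <;> simp [exR, smul_add, smul_sub]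
      smul_right := by intro c x y; ext <;> simp [exR, smul_add, smul_sub] }
  jordan := exotic_isJordan D

theorem split_mul_zero (D : Derivation F Γ Γ) (x y : (Γ × Γ) × (Γ × Γ)) :
    splitMul (kanMul dot (br D) par) (exL D) (exR D) (x, 0) (y, 0) =
      (kanMul dot (br D) par x y, 0) := by
  simp only [splitMul]
  ext <;> simp [exL, exR]

theorem contact_isJordan (D : Derivation F Γ Γ) :
    IsJordan (kanPart (part F Γ)) (kanMul dot (br D) par) := by
  have hmem : ∀ (i : ZMod 2) (x : (Γ × Γ) × (Γ × Γ)), x ∈ kanPart (part F Γ) i →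
      (x, (0 : Γ × Γ)) ∈ splitPart (kanPart (part F Γ)) (part F Γ) i :=
    fun i x hx => ⟨hx, zero_mem _⟩
  have H : IsJordan (splitPart (kanPart (part F Γ)) (part F Γ))
      (splitMul (kanMul dot (br D) par) (exL D) (exR D)) := exotic_isJordan D
  have S := H.superalgebra
  refine ⟨⟨isCompl_prod part_isCompl part_isCompl.symm, ⟨?_, ?_, ?_, ?_⟩, ?_⟩, ?_, ?_, ?_⟩
  · intro x y z
    have := congrArg Prod.fst (S.bilinear.add_left (x, 0) (y, 0) (z, 0))
    simpa [split_mul_zero] using this
  · intro x y z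
    have := congrArg Prod.fst (S.bilinear.add_right (x, 0) (y, 0) (z, 0))
    simpa [split_mul_zero] using this
  · intro c x y
    have := congrArg Prod.fst (S.bilinear.smul_left c (x, 0) (y, 0))
    simpa [split_mul_zero] using this
  · intro c x y
    have := congrArg Prod.fst (S.bilinear.smul_right c (x, 0) (y, 0))
    simpa [split_mul_zero] using this
  · intro i j x y hx hy
    have := S.even i j _ _ (hmem i x hx) (hmem j y hy)
    rw [split_mul_zero] at this
    exact this.1
  · intro i j x y hx hy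
    have := congrArg Prod.fst (H.comm i j _ _ (hmem i x hx) (hmem j y hy))
    simpa [split_mul_zero] using this
  · intro i j k l x y z t hx hy hz ht
    have := congrArg Prod.fst
      (H.jordan i j k l _ _ _ _ (hmem i x hx) (hmem j y hy) (hmem k z hz) (hmem l t ht))
    simpa [split_mul_zero] using this
  · intro x y hx
    have := congrArg Prod.fst (H.jordan_even (x, 0) (y, 0) (hmem 0 x hx))
    simpa [split_mul_zero] using this

theorem dot_one (x : Γ × Γ) : dot (1, 0) x = x ∧ dot x (1, 0) = x := by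
  constructor <;> simp [dot]

theorem contact_isSimple (D : Derivation F Γ Γ) (hD : DiffSimple D) :
    IsSimple F (dot (Γ := Γ)) (br D) := by
  obtain ⟨⟨x0, hx0⟩, hI⟩ := hD
  refine ⟨⟨(x0, 0), by simp [hx0]⟩, fun N hN => ?_⟩
  by_cases hbot : N = ⊥
  · exact Or.inl hbot
  right
  -- the ideal of all `f` with `f ∈ N`
  let I : Ideal Γ :=
    { carrier := {f | (f, (0 : Γ)) ∈ N}
      add_mem' := fun {a b} ha hb => by
        have := N.add_mem ha hb
        simpa using this
      zero_mem' := N.zero_mem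
      smul_mem' := fun c x hx => by
        have := (hN (c, 0) (x, 0) hx).1
        simpa [dot] using this }
  have hIstab : ∀ x ∈ I, D x ∈ I := by
    intro x hx
    have := (hN (1, 0) (x, 0) hx).2.2
    change (D x, (0 : Γ)) ∈ N
    simpa [br] using this
  have hIne : I ≠ ⊥ := by
    obtain ⟨⟨f, g⟩, hfg, hne⟩ := Submodule.exists_mem_ne_zero_of_ne_bot hbot
    have hodd : ∀ h : Γ, ((0 : Γ), h) ∈ N → h ∈ I := by
      intro h hh
      have := (hN (0, 1) (0, h) hh).2.2
      have h2 : ((-h : Γ), (0 : Γ)) ∈ N := by simpa [br] using this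
      have h3 := N.neg_mem h2
      change (h, (0 : Γ)) ∈ N
      simpa using h3
    by_cases hf : f = 0
    · subst hf
      have hg : g ≠ 0 := by
        intro hg; apply hne; rw [hg]; rfl
      intro hbotI
      have := hodd g hfg
      rw [hbotI] at this
      exact hg (by simpa using this)
    · intro hbotI
      have h1 := (hN (0, 1) (f, g) hfg).1
      have h2 : ((0 : Γ), f) ∈ N := by simpa [dot] using h1
      have := hodd f h2
      rw [hbotI] at this
      exact hf (by simpa using this)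
  have hItop : I = ⊤ := (hI I hIstab).resolve_left hIne
  have h1 : ((1 : Γ), (0 : Γ)) ∈ N := by
    have : (1 : Γ) ∈ I := by rw [hItop]; trivial
    exact this
  rw [Submodule.eq_top_iff']
  intro a
  have := (hN a _ h1).1
  rwa [(dot_one a).2] at this

theorem exotic_unital (D : Derivation F Γ Γ) (m : Γ × Γ) :
    exL D ((1, 0), (0, 0)) m = m ∧ exR D m ((1, 0), (0, 0)) = m := by
  constructor <;> simp [exL, exR]

theorem exotic_isIrreducible (D : Derivation F Γ Γ) (hD : DiffSimple D) :
    IsIrreducible (part F Γ) (exL D) (exR D) := by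
  obtain ⟨⟨x0, hx0⟩, hI⟩ := hD
  refine ⟨⟨(x0, 0), by simp [hx0]⟩, fun N hgr hN => ?_⟩
  by_cases hbot : N = ⊥
  · exact Or.inl hbot
  right
  let I : Ideal Γ :=
    { carrier := {f | (f, (0 : Γ)) ∈ N}
      add_mem' := fun {a b} ha hb => by
        have := N.add_mem ha hb
        simpa using this
      zero_mem' := N.zero_mem
      smul_mem' := fun c x hx => by
        have := (hN ((c, 0), (0, 0)) (x, 0) hx).1
        simpa [exL] using this }
  have hx : ∀ f : Γ, (f, (0 : Γ)) ∈ N → ((0 : Γ), f) ∈ N := by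
    intro f hf
    have := (hN ((0, 0), (1, 0)) (f, 0) hf).2
    simpa [exR] using this
  have hIstab : ∀ x ∈ I, D x ∈ I := by
    intro x hxI
    have := (hN ((0, 0), (1, 0)) (0, x) (hx x hxI)).2
    change (D x, (0 : Γ)) ∈ N
    simpa [exR] using this
  have hodd : ∀ h : Γ, ((0 : Γ), h) ∈ N → h ∈ I := by
    intro h hh
    have := (hN ((0, 1), (0, 0)) (0, h) hh).1
    change (h, (0 : Γ)) ∈ N
    simpa [exL] using this
  have hIne : I ≠ ⊥ := by
    intro hbotI
    apply hbot
    rw [eq_bot_iff]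
    have hNle : N ⊓ part F Γ 0 ≤ ⊥ := by
      rintro ⟨p, q⟩ ⟨hm, hm0⟩
      have hq : q = 0 := (mem_part_zero (F := F) (p, q)).1 hm0
      subst hq
      have : p ∈ I := hm
      rw [hbotI] at this
      have hp : p = 0 := by simpa using this
      rw [hp]
      exact zero_mem _
    have hNle' : N ⊓ part F Γ 1 ≤ ⊥ := by
      rintro ⟨p, q⟩ ⟨hm, hm0⟩
      have hp : p = 0 := (mem_part_one (F := F) (p, q)).1 hm0
      subst hp
      have : q ∈ I := hodd q hm
      rw [hbotI] at this
      have hq : q = 0 := by simpa using this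
      rw [hq]
      exact zero_mem _
    rw [hgr]
    exact sup_le hNle hNle'
  have hItop : I = ⊤ := (hI I hIstab).resolve_left hIne
  have h1 : ∀ f : Γ, (f, (0 : Γ)) ∈ N := by
    intro f
    have : f ∈ I := by rw [hItop]; trivial
    exact this
  rw [Submodule.eq_top_iff']
  rintro ⟨p, q⟩
  have := N.add_mem (h1 p) (hx q (h1 q))
  simpa using this

/-- **Negative answer to the question.** For every field `F` of characteristic not 2 and every
differentiably simple commutative `F`-algebra `(Γ, D)`, the dot-bracket superalgebra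
`A = Γ ⊕ Γe` is unital, simple and has a Jordan bracket, and `M = Γm₀ ⊕ Γm₁` is a unital
irreducible Jordan supermodule over `Kan(A)` which is not isomorphic to `Kan(W)` for any
dot-bracket supermodule `W` with a Jordan bracket over `A`, not even by an additive bijection
that is only required to commute with the right actions of `Kan(A)`. -/
theorem result (F : Type u) [Field F] (_hF : (2 : F) ≠ 0) (Γ : Type v) [CommRing Γ]
    [Algebra F Γ] (D : Derivation F Γ Γ) (hD : DiffSimple D) :
    IsSuperspace (part F Γ) (par (Γ := Γ)) ∧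
    IsDotBracket (part F Γ) (dot (Γ := Γ)) (br D) ∧
    (∀ a : Γ × Γ, dot (1, 0) a = a ∧ dot a (1, 0) = a) ∧
    IsSimple F (dot (Γ := Γ)) (br D) ∧
    IsJordan (kanPart (part F Γ)) (kanMul dot (br D) par) ∧
    IsJordanSupermodule (kanPart (part F Γ)) (kanMul dot (br D) par) (part F Γ) (exL D) (exR D) ∧
    (∀ m : Γ × Γ, exL D ((1, 0), (0, 0)) m = m ∧ exR D m ((1, 0), (0, 0)) = m) ∧
    IsIrreducible (part F Γ) (exL D) (exR D) ∧
    ∀ (W : Type w) [AddCommGroup W] [Module F W] (Q : ZMod 2 → Submodule F W) (τ : W → W)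
      (dotL : Γ × Γ → W → W) (dotR : W → Γ × Γ → W) (brL : Γ × Γ → W → W)
      (brR : W → Γ × Γ → W),
      IsDotBracketSupermodule (part F Γ) par dot (br D) Q τ dotL dotR brL brR →
      ¬ ∃ φ : Γ × Γ → W × W, Function.Bijective φ ∧ (∀ m n, φ (m + n) = φ m + φ n) ∧
        ∀ (m : Γ × Γ) (a : (Γ × Γ) × (Γ × Γ)), φ (exR D m a) = kanRight par dotR brR (φ m) a := by
  refine ⟨isSuperspace_part, isDotBracket_contact D, dot_one, contact_isSimple D hD,
    contact_isJordan D, exotic_isJordanSupermodule D, exotic_unital D, exotic_isIrreducible D hD,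
    ?_⟩
  rintro W _ _ Q τ dotL dotR brL brR hW ⟨φ, hbij, hadd, hφ⟩
  obtain ⟨x0, hx0⟩ := hD.1
  have hdotR0 : ∀ a : Γ × Γ, dotR 0 a = 0 := by
    intro a
    have := hW.bilinear_dotR.add_left 0 0 a
    rw [add_zero] at this
    exact left_eq_add.1 this
  have hbrR0 : ∀ a : Γ × Γ, brR 0 a = 0 := by
    intro a
    have := hW.bilinear_brR.add_left 0 0 a
    rw [add_zero] at this
    exact left_eq_add.1 this
  have hdotR0' : ∀ x : W, dotR x 0 = 0 := by
    intro x
    have := hW.bilinear_dotR.add_right x 0 0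
    rw [add_zero] at this
    exact left_eq_add.1 this
  have hφ0 : φ 0 = 0 := by
    have := hadd 0 0
    rw [add_zero] at this
    exact left_eq_add.1 this
  -- the element `ē` of `Kan(A)`
  have hright : ∀ m : Γ × Γ, exR D m ((0, 0), (0, 1)) = (m.1, 0) := by
    intro m; simp [exR]
  have hkan : ∀ m : W × W, kanRight par dotR brR m ((0, 0), (0, 1)) =
      (brR m.2 (par (0, 1)), dotR m.1 (0, 1)) := by
    intro m
    have h0 : ((0 : Γ), (0 : Γ)) = 0 := rfl
    have h1 : par ((0 : Γ), (0 : Γ)) = 0 := by simp [par]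
    simp only [kanRight, h1]
    rw [h0, hdotR0', hdotR0', zero_add, add_zero]
  -- `ē` acts idempotently on `Kan(W)`
  have hidem : ∀ m : W × W, kanRight par dotR brR
      (kanRight par dotR brR m ((0, 0), (0, 1))) ((0, 0), (0, 1)) =
      kanRight par dotR brR m ((0, 0), (0, 1)) := by
    intro m
    obtain ⟨n, rfl⟩ := hbij.2 m
    rw [← hφ, ← hφ, hright, hright]
  have hzero : ∀ m : W × W, kanRight par dotR brR m ((0, 0), (0, 1)) = 0 := by
    have ha : ∀ x : W, dotR x (0, 1) = 0 := by
      intro x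
      have := congrArg Prod.snd (hidem (x, 0))
      simp only [hkan, hbrR0, hdotR0] at this
      exact this.symm
    have hb : ∀ y : W, brR y (par (0, 1)) = 0 := by
      intro y
      have := congrArg Prod.fst (hidem (0, y))
      simp only [hkan, hbrR0, hdotR0] at this
      exact this.symm
    intro m
    rw [hkan, ha, hb]
    rfl
  have h2 : φ (exR D (x0, 0) ((0, 0), (0, 1))) = φ 0 := by rw [hφ, hzero, hφ0]
  rw [hright] at h2
  exact hx0 (congrArg Prod.fst (hbij.1 h2))

end Example

end Pool.Agent.Results.MP_ba200f_al.KantorDoubleCounterexample
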